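import Pool.Agent.H78.GS.TA5
import Pool.Agent.H83.GS.TX

/-!
# Theorem (G), section 3a, group F: from fractions with bounded denominators to a contradiction

Targets. `FA`, `HC`, `At` and `T_NUM` are those of `Pool.Agent.H78.GS`.
-/

set_option autoImplicit false

open Finset Pool.Agent.H6.N4D Pool.Agent.H78.GS

namespace Pool.Agent.H87.GS3

/-- all sheets over `t` lie at fractions with denominators at most `b₀` -/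
def Gt (S : Par) (e₁ ν : ℝ) (θ : ℤ → ℕ → ℝ) (F : ℤ → Finset ℕ) (T : ℝ) (b₀ : ℕ) (t : ℤ) : Prop :=
  ∀ j ∈ F t, ∃ b a : ℕ, 1 ≤ b ∧ b ≤ b₀ ∧ At S e₁ ν θ T b a t j

/-- FRC. Fractions with bounded denominators which are close modulo one are equal modulo one. -/
def T_FRC : Prop := ∀ b₀ b b' a a' : ℕ, 1 ≤ b → b ≤ b₀ → 1 ≤ b' → b' ≤ b₀ →
  (nd ((a : ℝ) / b - (a' : ℝ) / b') < 1 / (b₀ : ℝ) ^ 2 → nd ((a : ℝ) / b - (a' : ℝ) / b') = 0) ∧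
  ∀ p : ℕ, p.Prime → b₀ < p →
    nd (p * ((a : ℝ) / b) - p * ((a' : ℝ) / b')) < 1 / (b₀ : ℝ) ^ 2 →
    nd ((a : ℝ) / b - (a' : ℝ) / b') = 0

/-- ONE. Over one point at most one sheet lies at a fraction, and `FA` is its phase. -/
def T_ONE : Prop := ∀ (S : Par) (T : ℝ) (F : ℤ → Finset ℕ) (θ φ : ℤ → ℕ → ℝ) (b a : ℕ) (t : ℤ),
  S.Ok → Sep S θ F → t ∈ S.I →
    (∀ j ∈ F t, nd (fh S θ T t j - (a : ℝ) / b) ≤ 1 / (4 * (S.rho * S.x t)) →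
      FA S θ φ F T b a t =
        ee (φ t j - (a : ℝ) / b * S.n t - T * Real.log (S.n t) + T * (S.h * t))) ∧
    ((∀ j ∈ F t, ¬ nd (fh S θ T t j - (a : ℝ) / b) ≤ 1 / (4 * (S.rho * S.x t))) →
      FA S θ φ F T b a t = 0)

/-- PER. The function `FA` depends only on the residue class of the numerator. -/
def T_PER : Prop := ∀ (S : Par) (T : ℝ) (F : ℤ → Finset ℕ) (θ φ : ℤ → ℕ → ℝ) (b a : ℕ) (t : ℤ),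
  1 ≤ b → FA S θ φ F T b (a % b) t = FA S θ φ F T b a t

/-- FSH. The functions `FA` under small shifts. -/
def T_FSH : Prop := ∀ (b₀ : ℕ) (ζ : ℝ), 1 ≤ b₀ → 0 < ζ → ζ ≤ 1 → ∃ X₀ : ℝ,
  ∀ (S : Par) (e₀ e₁ ν T : ℝ) (F : ℤ → Finset ℕ) (θ φ : ℤ → ℕ → ℝ) (w b a : ℕ) (t : ℤ),
    S.Ok → X₀ ≤ S.X → 0 ≤ e₀ → e₀ ≤ ζ / 100 → 0 < e₁ → e₁ ≤ ζ / 5000 → 0 < ν → ν ≤ 1 / 50 →
    |T| ≤ e₁ / S.rho ^ 2 → Sep S θ F → t ∈ S.I → t + (w : ℤ) ∈ S.I → 1 ≤ w → w ≤ S.V →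
    Gt S e₁ ν θ F T b₀ t → Bij (RS S e₀ θ φ w t) (F t) (F (t + w)) → 1 ≤ b → b ≤ b₀ →
    ‖FA S θ φ F T b a (t + w) - FA S θ φ F T b a t‖ ≤ ζ

/-- FPR. The functions `FA` along the edges of the prime numbers. -/
def T_FPR : Prop := ∀ (b₀ K B : ℕ) (ζ : ℝ), 1 ≤ b₀ → 1 ≤ K → 1 ≤ B → B ≤ K → 0 < ζ → ζ ≤ 1 →
  ∃ X₀ : ℝ, ∀ (S : Par) (e₀ e₁ ν T : ℝ) (F : ℤ → Finset ℕ) (θ φ : ℤ → ℕ → ℝ) (p b a : ℕ) (t : ℤ),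
    S.Ok → S.K = K → X₀ ≤ S.X → 0 ≤ e₀ → e₀ ≤ ζ / 100 → 0 < e₁ → e₁ ≤ ζ / 5000 → 0 < ν →
    ν ≤ 1 / 50 → |T| ≤ e₁ / S.rho ^ 2 → Sep S θ F → t ∈ S.I → t - S.l p ∈ S.I →
    p ∈ Pr S.P (S.P ^ B) → Gt S e₁ ν θ F T b₀ t →
    Bij (RE S e₀ θ φ p t) (F t) (F (t - S.l p)) → 1 ≤ b → b ≤ b₀ →
    ‖FA S θ φ F T b (p * a) (t - S.l p) + FA S θ φ F T b a t‖ ≤ ζ

/-- HCE. From the functions `FA` to their twists. -/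
def T_HCE : Prop := ∀ (S : Par) (T ζ : ℝ) (F : ℤ → Finset ℕ) (θ φ : ℤ → ℕ → ℝ) (b : ℕ)
  (χ : DirichletCharacter ℂ b) (t u : ℤ), 1 ≤ b → 0 ≤ ζ →
    ((∀ a : ℕ, ‖FA S θ φ F T b a u - FA S θ φ F T b a t‖ ≤ ζ) →
      ‖HC S θ φ F T b χ u - HC S θ φ F T b χ t‖ ≤ b * ζ) ∧
    ∀ p : ℕ, Nat.Coprime p b →
      (∀ a : ℕ, ‖FA S θ φ F T b (p * a) u + FA S θ φ F T b a t‖ ≤ ζ) →
      ‖HC S θ φ F T b χ u + χ (p : ZMod b) * HC S θ φ F T b χ t‖ ≤ b * ζ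

/-- PAR. Some character sees the sheets at a reduced fraction. -/
def T_PAR : Prop := ∀ (S : Par) (T : ℝ) (F : ℤ → Finset ℕ) (θ φ : ℤ → ℕ → ℝ) (b a : ℕ) (t : ℤ),
  1 ≤ b → Nat.Coprime a b → 1 ≤ ‖FA S θ φ F T b a t‖ →
    ∃ χ : DirichletCharacter ℂ b, 1 ≤ ‖HC S θ φ F T b χ t‖

/-- GPT. Over a good point some twist is large. -/
def T_GPT : Prop := ∀ (S : Par) (e₁ ν T : ℝ) (F : ℤ → Finset ℕ) (θ φ : ℤ → ℕ → ℝ) (b₀ : ℕ) (t : ℤ),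
  S.Ok → 0 < e₁ → e₁ ≤ 1 → 0 < ν → ν ≤ 1 / 50 → Sep S θ F → t ∈ S.I → F t ≠ ∅ →
    Gt S e₁ ν θ F T b₀ t →
    ∃ b : ℕ, 1 ≤ b ∧ b ≤ b₀ ∧ ∃ χ : DirichletCharacter ℂ b, 1 ≤ ‖HC S θ φ F T b χ t‖

/-- MSS. One of the twists has some mass in the interior. -/
def T_MSS : Prop := ∀ b₀ : ℕ, 1 ≤ b₀ → ∃ η X₀ : ℝ, 0 < η ∧
  ∀ (S : Par) (E : ℤ → Prop) (H : (b : ℕ) → DirichletCharacter ℂ b → ℤ → ℂ), S.Ok → X₀ ≤ S.X →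
    S.cnt E ≤ 1 / 4 * S.N →
    (∀ t ∈ S.I, ¬ E t →
      ∃ b : ℕ, 1 ≤ b ∧ b ≤ b₀ ∧ ∃ χ : DirichletCharacter ℂ b, 1 ≤ ‖H b χ t‖) →
    ∃ b : ℕ, 1 ≤ b ∧ b ≤ b₀ ∧ ∃ χ : DirichletCharacter ℂ b,
      η * S.N ≤ ∑ t ∈ In S 1, ‖H b χ t‖ ^ 2

end Pool.Agent.H87.GS3
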